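import Pool.Agent.Work.MP_96dc1b_co.C.Low

/-! The lower bound `q² + q r`: affine planes with rook graphs on the parallel classes. -/

namespace Pool.Agent.Work.MP_96dc1b_co.C

open Finset Filter Topology

section aff

variable {F : Type} [Field F] {I : Type}

/-- The line of the class `s` through `p`. -/
def val (s : Option F) (p : F × F) : F := s.elim p.1 fun s' => p.2 - s' * p.1

/-- Points of the plane and copies `i` of parallel classes `σ i`. -/
def aff (σ : I → Option F) : SimpleGraph ((F × F) ⊕ (I × F)) where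
  Adj
    | .inl p, .inr v => val (σ v.1) p = v.2
    | .inr v, .inl p => val (σ v.1) p = v.2
    | .inr v, .inr w => (v.1 = w.1 ∧ v.2 ≠ w.2) ∨ (σ v.1 = σ w.1 ∧ v.1 ≠ w.1 ∧ v.2 = w.2)
    | _, _ => False
  symm := ⟨by
    rintro (x | x) (y | y) h
    · exact h
    · exact h
    · exact h
    · rcases h with ⟨h1, h2⟩ | ⟨h1, h2, h3⟩
      · exact Or.inl ⟨h1.symm, h2.symm⟩
      · exact Or.inr ⟨h1.symm, h2.symm, h3.symm⟩⟩
  loopless := ⟨by rintro (x | x) h <;> simp at h⟩

lemma join_points (p p' : F × F) : ∃ s, val s p = val s p' := by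
  by_cases h : p.1 = p'.1
  · exact ⟨none, h⟩
  · refine ⟨some ((p.2 - p'.2) / (p.1 - p'.1)), ?_⟩
    have h' : p.1 - p'.1 ≠ 0 := sub_ne_zero.2 h
    show p.2 - _ * p.1 = p'.2 - _ * p'.1
    field_simp
    ring

lemma meet_lines {s s' : Option F} (h : s ≠ s') (t t' : F) : ∃ p, val s p = t ∧ val s' p = t' := by
  rcases s with _ | a <;> rcases s' with _ | b
  · exact absurd rfl h
  · exact ⟨(t, t' + b * t), rfl, by simp [val]⟩
  · exact ⟨(t', t + a * t'), by simp [val], rfl⟩
  · have h' : b - a ≠ 0 := sub_ne_zero.2 fun e => h (by rw [e])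
    refine ⟨((t - t') / (b - a), t + a * ((t - t') / (b - a))), by simp [val], ?_⟩
    show t + a * ((t - t') / (b - a)) - b * ((t - t') / (b - a)) = t'
    field_simp
    ring

lemma aff_diam {σ : I → Option F} (hσ : Function.Surjective σ) (u v : (F × F) ⊕ (I × F))
    (h : u ≠ v) : (aff σ).Adj u v ∨ ∃ x, (aff σ).Adj x u ∧ (aff σ).Adj x v := by
  have key : ∀ (p : F × F) (w : I × F), (aff σ).Adj (.inl p) (.inr w) ∨
      ∃ x, (aff σ).Adj x (.inl p) ∧ (aff σ).Adj x (.inr w) := by
    intro p w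
    by_cases e : val (σ w.1) p = w.2
    · exact Or.inl e
    · exact Or.inr ⟨.inr (w.1, val (σ w.1) p), (rfl : val (σ w.1) p = val (σ w.1) p),
        Or.inl ⟨rfl, e⟩⟩
  rcases u with p | w <;> rcases v with p' | w'
  · obtain ⟨s, hs⟩ := join_points p p'
    obtain ⟨i, rfl⟩ := hσ s
    exact Or.inr ⟨.inr (i, val (σ i) p), (rfl : val (σ i) p = val (σ i) p), hs.symm⟩
  · exact key p w'
  · rcases key p' w with h1 | ⟨x, h1, h2⟩
    · exact Or.inl h1.symm
    · exact Or.inr ⟨x, h2, h1⟩
  · by_cases e : σ w.1 = σ w'.1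
    · by_cases e1 : w.1 = w'.1
      · exact Or.inl (Or.inl ⟨e1, fun e2 => h (by rw [Prod.ext e1 e2])⟩)
      · by_cases e2 : w.2 = w'.2
        · exact Or.inl (Or.inr ⟨e, e1, e2⟩)
        · exact Or.inr ⟨.inr (w.1, w'.2), Or.inl ⟨rfl, fun e3 => e2 e3.symm⟩, Or.inr ⟨e, e1, rfl⟩⟩
    · obtain ⟨p, h1, h2⟩ := meet_lines e w.2 w'.2
      exact Or.inr ⟨.inl p, h1, h2⟩

variable [Fintype F] [DecidableEq F] [Fintype I] [DecidableEq I]

lemma aff_degree {σ : I → Option F} {m r : ℕ} (hm : ∀ s, (univ.filter fun i => σ i = s).card ≤ m)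
    (hI : Fintype.card I ≤ r) (hr : 2 * Fintype.card F + m ≤ r) (x : (F × F) ⊕ (I × F)) :
    ((aff σ).neighborSet x).ncard ≤ r := by
  rcases x with p | ⟨i, t⟩
  · have hsub : (aff σ).neighborSet (.inl p) ⊆
        (univ.image fun i : I => (Sum.inr (i, val (σ i) p) : (F × F) ⊕ (I × F)) : Finset _) := by
      rintro (y | ⟨j, t⟩) hy
      · exact absurd hy (by simp [aff])
      · have e : val (σ j) p = t := hy
        exact mem_coe.2 (mem_image.2 ⟨j, mem_univ _, by rw [e]⟩)
    refine (Set.ncard_le_ncard hsub (Finset.finite_toSet _)).trans ?_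
    rw [Set.ncard_coe_finset]
    exact card_image_le.trans hI
  · let g : F → (F × F) ⊕ (I × F) := fun a => .inl ((σ i).elim (t, a) fun s => (a, t + s * a))
    have hsub : (aff σ).neighborSet (.inr (i, t)) ⊆
        ((univ.image g ∪ univ.image fun a : F => (Sum.inr (i, a) : (F × F) ⊕ (I × F))) ∪
          (univ.filter fun j => σ j = σ i).image
            fun j => (Sum.inr (j, t) : (F × F) ⊕ (I × F)) : Finset _) := by
      rintro (⟨a, b⟩ | ⟨j, t'⟩) hy
      · have e : val (σ i) (a, b) = t := hy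
        refine mem_coe.2 (mem_union_left _ (mem_union_left _ ?_))
        cases hs : σ i with
        | none =>
          rw [hs] at e
          have e' : a = t := e
          exact mem_image.2 ⟨b, mem_univ _, by simp [g, hs, e']⟩
        | some s =>
          rw [hs] at e
          have e' : b - s * a = t := e
          exact mem_image.2 ⟨a, mem_univ _, by simp [g, hs, ← e']⟩
      · rcases hy with ⟨h1, -⟩ | ⟨h1, -, h3⟩
        · have h1' : i = j := h1
          exact mem_coe.2 (mem_union_left _ (mem_union_right _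
            (mem_image.2 ⟨t', mem_univ _, by rw [h1']⟩)))
        · have h3' : t = t' := h3
          exact mem_coe.2 (mem_union_right _
            (mem_image.2 ⟨j, mem_filter.2 ⟨mem_univ _, h1.symm⟩, by rw [h3']⟩))
    refine (Set.ncard_le_ncard hsub (Finset.finite_toSet _)).trans ?_
    rw [Set.ncard_coe_finset]
    refine (card_union_le _ _).trans ((Nat.add_le_add ((card_union_le _ _).trans
      (Nat.add_le_add card_image_le card_image_le)) (card_image_le.trans (hm _))).trans ?_)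
    rw [card_univ]
    omega

theorem le_chiDyn_aff {σ : I → Option F} (hσ : Function.Surjective σ) {m r : ℕ}
    (hm : ∀ s, (univ.filter fun i => σ i = s).card ≤ m) (hI : Fintype.card I ≤ r)
    (hr : 2 * Fintype.card F + m ≤ r) :
    Fintype.card F * Fintype.card F + Fintype.card I * Fintype.card F ≤ chiDyn (aff σ) r := by
  obtain ⟨φ, hφ⟩ := Nat.sInf_mem (s := {k | ∃ φ : (F × F) ⊕ (I × F) → Fin k,
    IsDynamic (aff σ) r k φ}) ⟨_, exists_dynamic _ _⟩
  have hinj : Function.Injective φ := by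
    intro u v huv
    by_contra hne
    rcases aff_diam hσ u v hne with h | ⟨x, h1, h2⟩
    · exact hφ.1 u v h huv
    · have h3 := hφ.2 x
      rw [min_eq_right (aff_degree hm hI hr x)] at h3
      exact hne (Set.injOn_of_ncard_image_eq
        (le_antisymm (Set.ncard_image_le (Set.toFinite _)) h3) (Set.toFinite _) h1 h2 huv)
  have := Fintype.card_le_of_injective _ hinj
  simpa [chiDyn] using this

theorem treewidth_aff {σ : I → Option F} {m : ℕ}
    (hm : ∀ s, (univ.filter fun i => σ i = s).card ≤ m) :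
    treewidth (aff σ) ≤ Fintype.card F * Fintype.card F + m * Fintype.card F := by
  apply Nat.sInf_le
  refine ⟨Option F, inferInstance, SimpleGraph.starGraph none,
    fun s => univ.disjSum ((univ.filter fun i => σ i = s) ×ˢ univ),
    SimpleGraph.isTree_starGraph _, ?_, ?_, ?_⟩
  · rintro (p | w)
    · have : {s : Option F | (Sum.inl p : (F × F) ⊕ (I × F)) ∈
          univ.disjSum ((univ.filter fun i => σ i = s) ×ˢ univ)} = Set.univ := by
        ext x; simp
      rw [this]
      exact (SimpleGraph.induceUnivIso _).connected_iff.2 (SimpleGraph.connected_starGraph _)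
    · have : {s : Option F | (Sum.inr w : (F × F) ⊕ (I × F)) ∈
          univ.disjSum ((univ.filter fun i => σ i = s) ×ˢ univ)} = {σ w.1} := by
        ext x; simp [eq_comm]
      rw [this]
      have : Nonempty ({σ w.1} : Set (Option F)) := ⟨⟨_, rfl⟩⟩
      exact SimpleGraph.Connected.of_subsingleton
  · rintro (x | x) (y | y) h
    · exact absurd h (by simp [aff])
    · exact ⟨σ y.1, by simp, by simp⟩
    · exact ⟨σ x.1, by simp, by simp⟩
    · refine ⟨σ x.1, by simp, ?_⟩
      rcases h with ⟨h1, -⟩ | ⟨h1, -⟩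
      · simp [h1]
      · simp [h1]
  · intro s
    rw [card_disjSum, card_product, card_univ, card_univ, Fintype.card_prod]
    have := Nat.mul_le_mul_right (Fintype.card F) (hm s)
    omega

end aff

theorem exists_aff {p r : ℕ} (hp : p.Prime) (hr : 2 * p + (r / (p + 1) + 1) ≤ r) :
    ∃ (V : Type) (_ : Fintype V) (G : SimpleGraph V), treewidth G ≤ p * p + p + r ∧
      p * p + r * p ≤ chiDyn G r := by
  classical
  have := Fact.mk hp
  have hc : Fintype.card (ZMod p) = p := ZMod.card p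
  let e : Fin (p + 1) ≃ Option (ZMod p) := Fintype.equivOfCardEq (by simp)
  let σ : Fin r → Option (ZMod p) := fun i => e ⟨i % (p + 1), Nat.mod_lt _ p.succ_pos⟩
  have hσ : Function.Surjective σ := by
    intro s
    have h1 := (e.symm s).2
    have h2 : 0 ≤ r / (p + 1) := Nat.zero_le _
    refine ⟨⟨e.symm s, by omega⟩, ?_⟩
    simp [σ, Nat.mod_eq_of_lt h1]
  have hm : ∀ s, (univ.filter fun i => σ i = s).card ≤ r / (p + 1) + 1 := by
    intro s
    rw [← card_range (r / (p + 1) + 1)]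
    refine card_le_card_of_injOn (fun i : Fin r => (i : ℕ) / (p + 1)) (fun i _ => ?_) ?_
    · exact mem_coe.2 (mem_range.2 (Nat.lt_succ_of_le (Nat.div_le_div_right i.2.le)))
    · intro i hi j hj hij
      have h1 : σ i = σ j := (mem_filter.1 hi).2.trans (mem_filter.1 hj).2.symm
      have h2 : (i : ℕ) % (p + 1) = j % (p + 1) := congrArg Fin.val (e.injective h1)
      have h3 : (i : ℕ) / (p + 1) = j / (p + 1) := hij
      apply Fin.ext
      rw [← Nat.div_add_mod i (p + 1), ← Nat.div_add_mod j (p + 1), h2, h3]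
  refine ⟨_, inferInstance, aff σ, (treewidth_aff hm).trans ?_, ?_⟩
  · rw [hc]
    have := Nat.div_mul_le_self r (p + 1)
    nlinarith [Nat.zero_le (r / (p + 1))]
  · have := le_chiDyn_aff hσ hm (r := r) (by simp) (by rw [hc]; exact hr)
    rwa [hc, Fintype.card_fin] at this

theorem exists_asym {ε : ℝ} (hε : 0 < ε) : ∃ k₀ : ℕ, ∀ k r : ℕ, k₀ ≤ k → 4 * k ≤ r ^ 2 →
    ∃ (V : Type) (_ : Fintype V) (G : SimpleGraph V), treewidth G ≤ k ∧
      (1 - ε) * (r * √(k : ℝ) + k) ≤ chiDyn G r := by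
  by_cases h1 : 1 ≤ ε
  · refine ⟨0, fun k r _ _ => ⟨_, inferInstance, ⊤, treewidth_top k, ?_⟩⟩
    exact (mul_nonpos_of_nonpos_of_nonneg (by linarith) (by positivity)).trans (Nat.cast_nonneg _)
  have h1' : ε < 1 := not_le.1 h1
  have ht0 : 0 < 1 - ε / 4 := by linarith
  have hlim : Tendsto (fun k : ℕ => √(k : ℝ)) atTop atTop :=
    Real.tendsto_sqrt_atTop.comp tendsto_natCast_atTop_atTop
  obtain ⟨k₀, hk₀⟩ := eventually_atTop.1 (((hlim.const_mul_atTop ht0).eventually
    (prime_below ht0 (by linarith))).and (hlim.eventually_ge_atTop (32 / ε ^ 2)))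
  refine ⟨k₀, fun k r hk hr => ?_⟩
  obtain ⟨⟨p, hp, a1, a2⟩, a3⟩ := hk₀ k hk
  have hsq : √(k : ℝ) ^ 2 = k := Real.sq_sqrt (Nat.cast_nonneg _)
  have hs0 : 0 ≤ √(k : ℝ) := Real.sqrt_nonneg _
  have hr' : 4 * (k : ℝ) ≤ (r : ℝ) ^ 2 := by exact_mod_cast hr
  have hr0 : (0 : ℝ) ≤ r := Nat.cast_nonneg _
  have hp0 : (0 : ℝ) ≤ p := Nat.cast_nonneg _
  generalize √(k : ℝ) = s at *
  have b1 : 2 * s ≤ r := by nlinarith
  have b2 : 32 ≤ ε ^ 2 * s := by
    rw [div_le_iff₀ (by positivity)] at a3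
    linarith
  have b3 : 32 ≤ ε * s := by nlinarith [mul_nonneg hε.le hs0]
  have b4 : (1 - ε / 2) * s ≤ p := by nlinarith [mul_nonneg (sq_nonneg ε) hs0]
  have b5 : (p : ℝ) ≤ s := by nlinarith
  have b6 : (p : ℝ) * p ≤ (1 - ε / 4) * k := by
    have := mul_le_mul a1 b5 hp0 (by positivity)
    nlinarith
  by_cases hc : (r : ℝ) ≤ ε / 8 * k
  · have c1 : ((r / (p + 1) : ℕ) : ℝ) * (p + 1) ≤ r := by
      exact_mod_cast Nat.div_mul_le_self r (p + 1)
    have c0 : (0 : ℝ) ≤ ((r / (p + 1) : ℕ) : ℝ) := Nat.cast_nonneg _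
    have c2 : 16 ≤ ε * p := by nlinarith
    have c3 : 16 * ((r / (p + 1) : ℕ) : ℝ) ≤ ε * r := by
      have := mul_le_mul_of_nonneg_left c2 c0
      have := mul_le_mul_of_nonneg_left c1 hε.le
      nlinarith [mul_nonneg hε.le c0]
    have c4 : 2 * (p : ℝ) + (((r / (p + 1) : ℕ) : ℝ) + 1) ≤ r := by
      have := mul_le_mul_of_nonneg_left b1 ht0.le
      have := mul_le_mul_of_nonneg_left b1 hε.le
      nlinarith
    obtain ⟨V, _, G, hG, hχ⟩ := exists_aff (r := r) hp (by exact_mod_cast c4)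
    have c5 : (p : ℝ) * p + p + r ≤ k := by
      have := mul_le_mul_of_nonneg_right b3 hs0
      nlinarith
    refine ⟨V, inferInstance, G, hG.trans (by exact_mod_cast c5), ?_⟩
    have c6 : (p : ℝ) * p + r * p ≤ chiDyn G r := by exact_mod_cast hχ
    have c7 := mul_le_mul b4 b4 (by nlinarith) hp0
    have c8 := mul_le_mul_of_nonneg_left b4 hr0
    nlinarith [mul_nonneg (sq_nonneg ε) (sq_nonneg s), mul_nonneg hε.le (mul_nonneg hr0 hs0)]
  · obtain ⟨V, _, G, hG, hχ⟩ := exists_plane hp.isPrimePow r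
    have c5 : (p : ℝ) ^ 2 ≤ k := by nlinarith
    refine ⟨V, inferInstance, G, hG.trans (by exact_mod_cast c5), le_trans ?_ hχ⟩
    have c8 := mul_le_mul_of_nonneg_left b4 hr0
    have c9 := mul_le_mul_of_nonneg_left (not_le.1 hc).le (mul_nonneg hε.le hs0)
    have hk0 : (0 : ℝ) ≤ k := Nat.cast_nonneg _
    have c10 := mul_le_mul_of_nonneg_right b2 hk0
    nlinarith [mul_nonneg hε.le hk0]

end Pool.Agent.Work.MP_96dc1b_co.C
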