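import Pool.Agent.Work.MP_96dc1b_co.Upper
import Pool.Agent.Lib.ANT.PNT

/-! The lower bound with the sharp constant: truncated projective planes. -/

namespace Pool.Agent.Work.MP_96dc1b_co.C

open Finset Filter Topology

section tree

variable {T : Type}

/-- The graph joining each node to its parent. -/
def parG (f : T → T) : SimpleGraph T := SimpleGraph.fromRel fun x y => f x = y

lemma par_adj {f : T → T} {x y : T} : (parG f).Adj x y ↔ x ≠ y ∧ (f x = y ∨ f y = x) :=
  SimpleGraph.fromRel_adj _ _ _

lemma par_conn (f : T → T) (ρ : T → ℕ) (P : Set T) (z : T) (hz : z ∈ P)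
    (h : ∀ x ∈ P, x ≠ z → f x ∈ P ∧ ρ (f x) < ρ x) : ((parG f).induce P).Connected := by
  have key : ∀ n, ∀ x (hx : x ∈ P), ρ x < n → ((parG f).induce P).Reachable ⟨z, hz⟩ ⟨x, hx⟩ := by
    intro n
    induction n with
    | zero => intro x _ hn; omega
    | succ n ih =>
      intro x hx hn
      by_cases hxz : x = z
      · subst hxz
        exact SimpleGraph.Reachable.refl _
      · obtain ⟨h1, h2⟩ := h x hx hxz
        refine (ih (f x) h1 (by omega)).trans (SimpleGraph.Adj.reachable ?_)
        have hne : f x ≠ x := fun e => by rw [e] at h2; omega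
        exact par_adj.2 ⟨hne, Or.inr rfl⟩
  exact (SimpleGraph.connected_iff_exists_forall_reachable _).2
    ⟨⟨z, hz⟩, fun w => key _ w.1 w.2 (Nat.lt_succ_self _)⟩

lemma par_tree [Fintype T] (f : T → T) (ρ : T → ℕ) (z : T) (hz : f z = z)
    (h : ∀ x, x ≠ z → ρ (f x) < ρ x) : (parG f).IsTree := by
  classical
  have hc : (parG f).Connected :=
    (SimpleGraph.induceUnivIso _).connected_iff.1
      (par_conn f ρ Set.univ z trivial fun x _ hx => ⟨trivial, h x hx⟩)
  refine SimpleGraph.isTree_iff_connected_and_card.2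
    ⟨hc, le_antisymm ?_ hc.card_vert_le_card_edgeSet_add_one⟩
  have hsub : (parG f).edgeSet ⊆ ((univ.erase z).image fun x => s(x, f x) : Finset _) := by
    intro e he
    induction e using Sym2.ind with
    | h x y =>
      obtain ⟨hne, h1 | h1⟩ := par_adj.1 ((SimpleGraph.mem_edgeSet _).1 he)
      · refine mem_coe.2 (mem_image.2 ⟨x, mem_erase.2 ⟨?_, mem_univ _⟩, by rw [h1]⟩)
        rintro rfl
        exact hne (hz.symm.trans h1)
      · refine mem_coe.2 (mem_image.2 ⟨y, mem_erase.2 ⟨?_, mem_univ _⟩, by rw [h1, Sym2.eq_swap]⟩)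
        rintro rfl
        exact hne (hz.symm.trans h1).symm
  have h1 := Set.ncard_le_ncard hsub (Finset.finite_toSet _)
  rw [Set.ncard_coe_finset] at h1
  have h2 := h1.trans card_image_le
  rw [card_erase_of_mem (mem_univ z), card_univ] at h2
  have h3 : 0 < Fintype.card T := Fintype.card_pos_iff.2 ⟨z⟩
  rw [Nat.card_coe_set_eq, Nat.card_eq_fintype_card]
  omega

end tree

section plane

variable {F : Type} [Field F] {m : ℕ}

/-- The point of the line of `v` in the class `s`. -/
def ev (v : F × F × Fin m) : Option F → F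
  | none => v.2.1
  | some s => v.1 + s * v.2.1

/-- Points `(s, t)` and `m` copies of each line. -/
def plane (F : Type) [Field F] (m : ℕ) : SimpleGraph ((Option F × F) ⊕ (F × F × Fin m)) where
  Adj
    | .inl p, .inr v => p.2 = ev v p.1
    | .inr v, .inl p => p.2 = ev v p.1
    | _, _ => False
  symm := ⟨by rintro (x | x) (y | y) h <;> exact h⟩
  loopless := ⟨by rintro (x | x) h <;> simp at h⟩

/-- The parent of a node. -/
def par : Option (F ⊕ (F × F × Fin m)) → Option (F ⊕ (F × F × Fin m))
  | none => none
  | some (.inl _) => none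
  | some (.inr v) => some (.inl v.2.1)

/-- The depth of a node. -/
def dep : Option (F ⊕ (F × F × Fin m)) → ℕ
  | none => 0
  | some (.inl _) => 1
  | some (.inr _) => 2

variable [Fintype F] [DecidableEq F]

/-- The bags. -/
def bag : Option (F ⊕ (F × F × Fin m)) → Finset ((Option F × F) ⊕ (F × F × Fin m))
  | none => univ.image fun p : F × F => .inl (some p.1, p.2)
  | some (.inl t) => insert (.inl (none, t)) (univ.image fun p : F × F => .inl (some p.1, p.2))
  | some (.inr v) => insert (.inr v) (univ.image fun s : Option F => .inl (s, ev v s))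

theorem treewidth_plane : treewidth (plane F m) ≤ Fintype.card F ^ 2 := by
  apply Nat.sInf_le
  refine ⟨Option (F ⊕ (F × F × Fin m)), inferInstance, parG par, bag,
    par_tree par dep none rfl ?_, ?_, ?_, ?_⟩
  · rintro (_ | t | v) h
    · exact absurd rfl h
    · simp [par, dep]
    · simp [par, dep]
  · rintro (⟨_ | s, t⟩ | w)
    · refine par_conn par dep _ (some (.inl t)) (by simp [bag]) ?_
      rintro (_ | t' | v) hx hne
      · simp [bag] at hx
      · have : t = t' := by simpa [bag] using hx
        exact absurd (by rw [this]) hne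
      · have : ev v none = t := by simpa [bag] using hx
        refine ⟨?_, by simp [par, dep]⟩
        have h2 : t = v.2.1 := this.symm
        simp [par, bag, h2]
    · refine par_conn par dep _ none (by simp [bag]) ?_
      rintro (_ | t' | v) hx hne
      · exact absurd rfl hne
      · exact ⟨by simp [par, bag], by simp [par, dep]⟩
      · exact ⟨by simp [par, bag], by simp [par, dep]⟩
    · refine par_conn par dep _ (some (.inr w)) (by simp [bag]) ?_
      rintro (_ | t' | v) hx hne
      · simp [bag] at hx
      · simp [bag] at hx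
      · have : w = v := by simpa [bag] using hx
        exact absurd (by rw [this]) hne
  · have key : ∀ (p : Option F × F) (v : F × F × Fin m), p.2 = ev v p.1 →
        (Sum.inl p : (Option F × F) ⊕ (F × F × Fin m)) ∈ bag (some (.inr v)) := by
      intro p v h
      exact mem_insert_of_mem (mem_image.2 ⟨p.1, mem_univ _, by rw [← h]⟩)
    rintro (x | x) (y | y) h
    · exact absurd h (by simp [plane])
    · exact ⟨some (.inr y), key x y h, mem_insert_self _ _⟩
    · exact ⟨some (.inr x), mem_insert_self _ _, key y x h⟩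
    · exact absurd h (by simp [plane])
  · have hq : 2 ≤ Fintype.card F := Fintype.one_lt_card
    have h0 : (univ.image fun p : F × F =>
        (Sum.inl (some p.1, p.2) : (Option F × F) ⊕ (F × F × Fin m))).card ≤
        Fintype.card F ^ 2 := card_image_le.trans (by simp [sq])
    rintro (_ | t | v)
    · exact h0.trans (Nat.le_succ _)
    · exact (card_insert_le _ _).trans (Nat.succ_le_succ h0)
    · refine (card_insert_le _ _).trans (Nat.succ_le_succ (card_image_le.trans ?_))
      rw [card_univ, Fintype.card_option]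
      nlinarith

lemma point_degree (p : Option F × F) :
    ((plane F m).neighborSet (.inl p)).ncard ≤ Fintype.card F * m := by
  obtain ⟨s, t⟩ := p
  let g : F × Fin m → (Option F × F) ⊕ (F × F × Fin m) := fun y =>
    .inr (s.elim (y.1, t, y.2) fun s' => (t - s' * y.1, y.1, y.2))
  have hsub : (plane F m).neighborSet (.inl (s, t)) ⊆ (univ.image g : Finset _) := by
    rintro (y | ⟨a, b, i⟩) hy
    · exact absurd hy (by simp [plane])
    · have hy' : t = ev (a, b, i) s := hy
      cases s with
      | none =>
        have e : t = b := hy'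
        exact mem_coe.2 (mem_image.2 ⟨(a, i), mem_univ _, by simp [g, e]⟩)
      | some s' =>
        have e : t = a + s' * b := hy'
        exact mem_coe.2 (mem_image.2 ⟨(b, i), mem_univ _, by simp [g, e]⟩)
  refine (Set.ncard_le_ncard hsub (Finset.finite_toSet _)).trans ?_
  rw [Set.ncard_coe_finset]
  exact card_image_le.trans (by simp)

omit [Fintype F] in
lemma common_point (v w : F × F × Fin m) : ∃ s, ev v s = ev w s := by
  by_cases h : v.2.1 = w.2.1
  · exact ⟨none, h⟩
  · refine ⟨some ((w.1 - v.1) / (v.2.1 - w.2.1)), ?_⟩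
    have h' : v.2.1 - w.2.1 ≠ 0 := sub_ne_zero.2 h
    show v.1 + _ * v.2.1 = w.1 + _ * w.2.1
    field_simp
    ring

theorem le_chiDyn_plane {r : ℕ} (hr : Fintype.card F * m ≤ r) :
    Fintype.card F ^ 2 * m ≤ chiDyn (plane F m) r := by
  obtain ⟨φ, hφ⟩ := Nat.sInf_mem (s := {k | ∃ φ : (Option F × F) ⊕ (F × F × Fin m) → Fin k,
    IsDynamic (plane F m) r k φ}) ⟨_, exists_dynamic _ _⟩
  have hinj : Function.Injective fun v : F × F × Fin m => φ (.inr v) := by
    intro x y hxy
    obtain ⟨s, hs⟩ := common_point x y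
    have h1 := hφ.2 (.inl (s, ev x s))
    rw [min_eq_right ((point_degree _).trans hr)] at h1
    have h2 : Set.InjOn φ ((plane F m).neighborSet (.inl (s, ev x s))) :=
      Set.injOn_of_ncard_image_eq (le_antisymm (Set.ncard_image_le (Set.toFinite _)) h1)
        (Set.toFinite _)
    exact Sum.inr_injective (h2 (show ev x s = ev x s from rfl) (show ev x s = ev y s from hs) hxy)
  have := Fintype.card_le_of_injective _ hinj
  simpa [chiDyn, sq, mul_assoc] using this

end plane

theorem exists_plane {q : ℕ} (hq : IsPrimePow q) (r : ℕ) :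
    ∃ (V : Type) (_ : Fintype V) (G : SimpleGraph V), treewidth G ≤ q ^ 2 ∧
      (q : ℝ) * (r - q + 1) ≤ chiDyn G r := by
  classical
  obtain ⟨p, n, hp, hn, rfl⟩ := (isPrimePow_nat_iff q).1 hq
  have := Fact.mk hp
  let _ : Fintype (GaloisField p n) := Fintype.ofFinite _
  have hc : Fintype.card (GaloisField p n) = p ^ n := by
    rw [← Nat.card_eq_fintype_card]
    exact GaloisField.card p n hn.ne'
  generalize p ^ n = q at *
  have hq0 : 0 < q := hq.pos
  refine ⟨_, inferInstance, plane (GaloisField p n) (r / q), hc ▸ treewidth_plane, ?_⟩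
  have h1 := le_chiDyn_plane (F := GaloisField p n) (m := r / q) (r := r)
    (by rw [hc]; exact Nat.mul_div_le r q)
  rw [hc] at h1
  have h2 : r + 1 ≤ q * (r / q) + q := by
    have := Nat.div_add_mod r q
    have := Nat.mod_lt r hq0
    omega
  have h3 : (r : ℝ) + 1 ≤ q * ((r / q : ℕ) : ℝ) + q := by exact_mod_cast h2
  have h4 : (q : ℝ) ^ 2 * ((r / q : ℕ) : ℝ) ≤ chiDyn (plane (GaloisField p n) (r / q)) r := by
    exact_mod_cast h1
  have h5 : (0 : ℝ) ≤ q := Nat.cast_nonneg _
  nlinarith

lemma prime_below {t : ℝ} (h0 : 0 < t) (h1 : t < 1) :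
    ∀ᶠ x : ℝ in atTop, ∃ p : ℕ, p.Prime ∧ (p : ℝ) ≤ x ∧ t * x < p := by
  have a0 := Pool.Agent.Lib.ANT.tendsto_theta_div
  have a2 := (a0.comp (tendsto_id.const_mul_atTop h0)).const_mul t
  have a3 := (a0.sub a2).eventually (lt_mem_nhds (a := 0) (by linarith))
  filter_upwards [a3, eventually_gt_atTop 0] with x hx hx0
  by_contra hc
  push Not at hc
  have h5 : Chebyshev.theta x ≤ Chebyshev.theta (t * x) := by
    unfold Chebyshev.theta
    refine Finset.sum_le_sum_of_subset_of_nonneg ?_ (fun p _ _ => Real.log_natCast_nonneg p)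
    intro p hp
    simp only [Finset.mem_filter, Finset.mem_Ioc] at hp ⊢
    exact ⟨⟨hp.1.1, Nat.le_floor (hc p hp.2 ((Nat.le_floor_iff hx0.le).1 hp.1.2))⟩, hp.2⟩
  simp only [Function.comp, id] at hx
  have h8 : Chebyshev.theta x / x - t * (Chebyshev.theta (t * x) / (t * x)) =
      (Chebyshev.theta x - Chebyshev.theta (t * x)) / x := by
    field_simp
  rw [h8] at hx
  exact absurd (div_nonpos_of_nonpos_of_nonneg (sub_nonpos.2 h5) hx0.le) (not_le.2 hx)

end Pool.Agent.Work.MP_96dc1b_co.C
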