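import Pool.Agent.Work.MP_96dc1b_co.Upper

/-! The upper bound with the sharp constant: weighted averaging over two branches. -/

namespace Pool.Agent.Work.MP_96dc1b_co.C

open Finset

section piece

variable {V : Type} [Fintype V] [DecidableEq V] {G : SimpleGraph V}
  {T : Type} {TT : SimpleGraph T} {B : T → Finset V}

/-- All neighbours of `A` lie in `A` or in `X`. -/
def Cl (G : SimpleGraph V) (X A : Finset V) : Prop := ∀ a ∈ A, ∀ b, G.Adj a b → b ∈ A ∨ b ∈ X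

/-- Two disjoint sets cut off by the same at most `k + 1` vertices. -/
def Two (G : SimpleGraph V) (S : Finset V) (k m : ℕ) : Prop :=
  ∃ X A₁ A₂ : Finset V, X.card ≤ k + 1 ∧ Cl G X A₁ ∧ Cl G X A₂ ∧ Disjoint A₁ A₂ ∧
    (A₁ ∩ S).card < m ∧ ((A₂ ∩ S).card < m ∨ X.card + (A₂ ∩ S).card ≤ m + k) ∧
    m ≤ (A₁ ∩ S).card + (A₂ ∩ S).card

variable (hc : ∀ v : V, (TT.induce {x | v ∈ B x}).Connected)
  (he : ∀ u v : V, G.Adj u v → ∃ x, u ∈ B x ∧ v ∈ B x)
include hc he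

lemma two_at {k m : ℕ} (hm : 1 ≤ m) {S : Finset V} (t : T) (hB : (B t).card ≤ k + 1)
    (Z : Finset T) (hsmall : ∀ z ∈ Z, (br TT B t z ∩ S).card < m)
    (hZ : m ≤ (Z.biUnion (br TT B t) ∩ S).card) : Two G S k m := by
  classical
  let F : Finset T → Finset V := fun Y => Y.biUnion (br TT B t) ∩ S
  obtain ⟨Y, hY, hmin⟩ := exists_min_image (Z.powerset.filter fun Y => m ≤ (F Y).card)
    Finset.card ⟨Z, mem_filter.2 ⟨mem_powerset_self _, hZ⟩⟩
  rw [mem_filter, mem_powerset] at hY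
  obtain ⟨z, hz⟩ : Y.Nonempty := by
    rw [nonempty_iff_ne_empty]
    rintro rfl
    have := hY.2
    simp [F] at this
    omega
  have hlt : (F (Y.erase z)).card < m := by
    by_contra hge
    have := hmin (Y.erase z) (mem_filter.2
      ⟨mem_powerset.2 ((erase_subset _ _).trans hY.1), not_lt.1 hge⟩)
    have := card_erase_lt_of_mem hz
    omega
  have hsub : F Y ⊆ F (Y.erase z) ∪ ((br TT B t z \ (Y.erase z).biUnion (br TT B t)) ∩ S) := by
    intro v hv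
    obtain ⟨h1, h2⟩ := mem_inter.1 hv
    by_cases h0 : v ∈ (Y.erase z).biUnion (br TT B t)
    · exact mem_union_left _ (mem_inter.2 ⟨h0, h2⟩)
    · obtain ⟨w, hw, h3⟩ := mem_biUnion.1 h1
      by_cases hwz : w = z
      · exact mem_union_right _ (mem_inter.2 ⟨mem_sdiff.2 ⟨hwz ▸ h3, h0⟩, h2⟩)
      · exact absurd (mem_biUnion.2 ⟨w, mem_erase.2 ⟨hwz, hw⟩, h3⟩) h0
  have hle := (card_le_card hsub).trans (card_union_le _ _)
  have hcl : Cl G (B t) ((Y.erase z).biUnion (br TT B t)) := by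
    intro a ha b hab
    obtain ⟨w, hw, h3⟩ := mem_biUnion.1 ha
    rcases br_closed hc he h3 hab with h | h
    · exact Or.inl (mem_biUnion.2 ⟨w, hw, h⟩)
    · exact Or.inr h
  refine ⟨B t, (Y.erase z).biUnion (br TT B t), br TT B t z \ (Y.erase z).biUnion (br TT B t), hB,
    hcl, fun a ha b hab => ?_, disjoint_sdiff, hlt, Or.inl ?_, hY.2.trans hle⟩
  · obtain ⟨ha1, ha2⟩ := mem_sdiff.1 ha
    rcases br_closed hc he ha1 hab with h | h
    · refine Or.inl (mem_sdiff.2 ⟨h, fun hb => ?_⟩)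
      rcases hcl b hb a hab.symm with h' | h'
      · exact ha2 h'
      · exact (mem_br.1 ha1 t h').ne_right rfl
    · exact Or.inr h
  · exact lt_of_le_of_lt (card_le_card (inter_subset_inter_right sdiff_subset)) (hsmall z (hY.1 hz))

lemma exists_two [Fintype T] (hT : TT.IsTree) {k m : ℕ} (hB : ∀ x, (B x).card ≤ k + 1)
    (hm : 1 ≤ m) {S : Finset V} (hS : m + k + 1 ≤ S.card) : Two G S k m := by
  classical
  let comp : T × T → ℕ := fun q => (univ.filter fun x => Av TT q.1 q.2 x).card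
  let P : Finset (T × T) :=
    univ.filter fun q => q.2 ≠ q.1 ∧ m ≤ (br TT B q.1 q.2 ∩ S).card
  rcases P.eq_empty_or_nonempty with hP | hP
  · obtain ⟨t⟩ := hT.connected.nonempty
    refine two_at hc he hm t (hB t) (univ.erase t) (fun z hz => ?_) ?_
    · by_contra hge
      have : (t, z) ∈ P := mem_filter.2 ⟨mem_univ _, (mem_erase.1 hz).1, not_lt.1 hge⟩
      rw [hP] at this
      exact notMem_empty _ this
    · have h1 : S ⊆ B t ∪ (univ.erase t).biUnion (br TT B t) ∩ S := by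
        intro v hvS
        by_cases hv : v ∈ B t
        · exact mem_union_left _ hv
        · obtain ⟨⟨x, hx⟩⟩ := (hc v).nonempty
          refine mem_union_right _ (mem_inter.2 ⟨mem_biUnion.2
            ⟨x, mem_erase.2 ⟨?_, mem_univ _⟩, mem_br_self hc hv hx⟩, hvS⟩)
          rintro rfl
          exact hv hx
      have := (card_le_card h1).trans (card_union_le _ _)
      have := hB t
      omega
  · obtain ⟨⟨t, y⟩, hq, hmin⟩ := exists_min_image P comp hP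
    obtain ⟨-, hyt, hbig⟩ := mem_filter.1 hq
    obtain ⟨t', ha, ht'⟩ := exists_adj_av hT.connected hyt
    let Z : Finset T := univ.filter fun z => z ≠ t' ∧ ¬ Av TT t' z t
    by_cases hZ : m ≤ (Z.biUnion (br TT B t') ∩ S).card
    · refine two_at hc he hm t' (hB t') Z (fun z hz => ?_) hZ
      obtain ⟨-, hz1, hz2⟩ := mem_filter.1 hz
      by_contra hge
      have h1 := hmin (t', z) (mem_filter.2 ⟨mem_univ _, hz1, not_lt.1 hge⟩)
      refine absurd h1 (not_le.2 (card_lt_card ⟨fun x hx => ?_, fun h => ?_⟩))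
      · have hx' : Av TT t' z x := (mem_filter.1 hx).2
        have h3 : ¬ Av TT t' x t := fun h => hz2 (hx'.trans h)
        exact mem_filter.2 ⟨mem_univ _,
          ((av_of_not_av hT.connected ha.ne' h3).trans ht').symm⟩
      · have : t' ∈ univ.filter fun x => Av TT t' z x := h (mem_filter.2 ⟨mem_univ _, ht'.symm⟩)
        exact (mem_filter.1 this).2.ne_right rfl
    · have h1 : br TT B t y ∩ S ⊆ B t' \ B t ∪ Z.biUnion (br TT B t') ∩ S := by
        intro v hv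
        by_cases hv' : v ∈ B t'
        · exact mem_union_left _ (mem_sdiff.2
            ⟨hv', fun h => (mem_br.1 (mem_inter.1 hv).1 t h).ne_right rfl⟩)
        · obtain ⟨⟨x, hx⟩⟩ := (hc v).nonempty
          refine mem_union_right _ (mem_inter.2 ⟨mem_biUnion.2 ⟨x, mem_filter.2
            ⟨mem_univ _, ?_, fun h => ?_⟩, mem_br_self hc hv' hx⟩, (mem_inter.1 hv).2⟩)
          · rintro rfl
            exact hv' hx
          · have h1 : Av TT t y x := mem_br.1 (mem_inter.1 hv).1 x hx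
            exact not_av_av hT.isAcyclic ha h (ht'.trans h1).symm
      have h2 := (card_le_card h1).trans (card_union_le _ _)
      have h3 := card_sdiff_add_card_inter (B t') (B t)
      have h4 := hB t'
      refine ⟨B t' ∩ B t, ∅, br TT B t y, by omega, fun a ha => absurd ha (notMem_empty a),
        fun a haA b hab => ?_, disjoint_empty_left _, by rw [empty_inter]; exact hm,
        Or.inr (by omega), le_add_left hbig⟩
      rcases br_closed hc he haA hab with h | h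
      · exact Or.inl h
      · refine Or.inr (mem_inter.2 ⟨?_, h⟩)
        by_contra hb
        obtain ⟨x, hax, hbx⟩ := he a b hab
        exact not_av_av hT.isAcyclic ha (av_of_connected (hc b) hbx h hb)
          (ht'.trans (mem_br.1 haA x hax)).symm

end piece

section real

lemma psd {T a b : ℝ} (hT : 0 < T) (ha : 2 * a < T) (hb : 2 * b < T) (hab : T ≤ 2 * (a + b))
    (p q : ℝ) :
    0 ≤ b * (T - 2 * b) * p ^ 2 + a * (T - 2 * a) * q ^ 2 + (T - 2 * a) * (T - 2 * b) * (p * q) := by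
  have hb0 : 0 < b := by linarith
  have h1 : 0 < b * (T - 2 * b) := mul_pos hb0 (by linarith)
  have h2 : 0 ≤ (T - 2 * a) * (T - 2 * b) * (T * (2 * (a + b) - T)) * q ^ 2 :=
    mul_nonneg (mul_nonneg (mul_nonneg (by linarith) (by linarith))
      (mul_nonneg hT.le (by linarith))) (sq_nonneg q)
  have h3 : 4 * (b * (T - 2 * b)) * (b * (T - 2 * b) * p ^ 2 + a * (T - 2 * a) * q ^ 2 +
      (T - 2 * a) * (T - 2 * b) * (p * q)) =
      (2 * (b * (T - 2 * b)) * p + (T - 2 * a) * (T - 2 * b) * q) ^ 2 +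
        (T - 2 * a) * (T - 2 * b) * (T * (2 * (a + b) - T)) * q ^ 2 := by ring
  have h4 : 0 ≤ 4 * (b * (T - 2 * b)) * (b * (T - 2 * b) * p ^ 2 + a * (T - 2 * a) * q ^ 2 +
      (T - 2 * a) * (T - 2 * b) * (p * q)) := by
    rw [h3]
    exact add_nonneg (sq_nonneg _) h2
  exact nonneg_of_mul_nonneg_right h4 (by linarith)

lemma quad {T s r a b : ℝ} (hT : 0 < T) (hs : T = r * s) (ha : 2 * a < T) (hb : 2 * b < T)
    (hab : T ≤ 2 * (a + b)) (u v : ℝ) :
    s ^ 2 * (r * (b * (T - 2 * b) * u + a * (T - 2 * a) * v) -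
      (b * (T - 2 * b) * u ^ 2 + a * (T - 2 * a) * v ^ 2 + (T - 2 * a) * (T - 2 * b) * (u * v))) ≤
    b * (T - 2 * b) * a ^ 2 + a * (T - 2 * a) * b ^ 2 + (T - 2 * a) * (T - 2 * b) * (a * b) := by
  have h := psd hT ha hb hab (s * u - a) (s * v - b)
  have h2 : s ^ 2 * r = T * s := by rw [hs]; ring
  have h3 : b * (T - 2 * b) * (s * u - a) ^ 2 + a * (T - 2 * a) * (s * v - b) ^ 2 +
      (T - 2 * a) * (T - 2 * b) * ((s * u - a) * (s * v - b)) =
      b * (T - 2 * b) * a ^ 2 + a * (T - 2 * a) * b ^ 2 + (T - 2 * a) * (T - 2 * b) * (a * b) -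
      (T * s * (b * (T - 2 * b) * u + a * (T - 2 * a) * v) - s ^ 2 *
        (b * (T - 2 * b) * u ^ 2 + a * (T - 2 * a) * v ^ 2 +
          (T - 2 * a) * (T - 2 * b) * (u * v))) := by ring
  rw [h3, ← h2] at h
  linarith

end real

section colour

variable {V : Type} [DecidableEq V] {G : SimpleGraph V} (N : V → Finset V)
  (hN : ∀ x, ∀ a ∈ N x, G.Adj x a) {r : ℕ} (hr : ∀ x, (N x).card ≤ r)
  (H : V → V → Prop) [DecidableRel H]
  (hH : ∀ a b, H a b → G.Adj a b ∨ ∃ x, a ∈ N x ∧ b ∈ N x)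
include hN hr hH

lemma one_conf {S X A D : Finset V} (hcl : Cl G X A) (hd : Disjoint (A ∩ S) D) {l : ℝ}
    (h0 : 0 ≤ l) (h1 : l ≤ 1) {a : V} (ha : a ∈ A ∩ S) :
    (((S.erase a).filter (H a)).card : ℝ) ≤ X.card + (A ∩ S).card + l * D.card +
      ∑ x ∈ X.filter (fun x => a ∈ N x),
        ((r : ℝ) - (N x ∩ (A ∩ S)).card - l * (N x ∩ D).card) := by
  set Y := X.filter fun x => a ∈ N x with hY
  have hsub : (S.erase a).filter (H a) ⊆
      ((X ∪ A ∩ S) ∪ D ∩ Y.biUnion N) ∪ Y.biUnion fun x => N x \ (A ∩ S ∪ D) := by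
    intro b hb
    obtain ⟨hb1, hb2⟩ := mem_filter.1 hb
    have hbS := (mem_erase.1 hb1).2
    have haA := (mem_inter.1 ha).1
    have hin : b ∈ A ∨ b ∈ X →
        b ∈ ((X ∪ A ∩ S) ∪ D ∩ Y.biUnion N) ∪ Y.biUnion fun x => N x \ (A ∩ S ∪ D) := by
      rintro (h | h)
      · exact mem_union_left _ (mem_union_left _ (mem_union_right _ (mem_inter.2 ⟨h, hbS⟩)))
      · exact mem_union_left _ (mem_union_left _ (mem_union_left _ h))
    rcases hH a b hb2 with h | ⟨x, hx1, hx2⟩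
    · exact hin (hcl a haA b h)
    · rcases hcl a haA x (hN x a hx1).symm with h | h
      · exact hin (hcl x h b (hN x b hx2))
      · have hxY : x ∈ Y := mem_filter.2 ⟨h, hx1⟩
        by_cases hbA : b ∈ A
        · exact hin (Or.inl hbA)
        · by_cases hbD : b ∈ D
          · exact mem_union_left _ (mem_union_right _
              (mem_inter.2 ⟨hbD, mem_biUnion.2 ⟨x, hxY, hx2⟩⟩))
          · refine mem_union_right _ (mem_biUnion.2 ⟨x, hxY, mem_sdiff.2 ⟨hx2, fun h' => ?_⟩⟩)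
            rcases mem_union.1 h' with h' | h'
            · exact hbA (mem_inter.1 h').1
            · exact hbD h'
  have e1 := (card_le_card hsub).trans (card_union_le _ _)
  have e2 := card_union_le (X ∪ A ∩ S) (D ∩ Y.biUnion N)
  have e3 := card_union_le X (A ∩ S)
  have e4 : (D ∩ Y.biUnion N).card ≤ D.card := card_le_card inter_subset_left
  have e5 : (D ∩ Y.biUnion N).card ≤ ∑ x ∈ Y, (N x ∩ D).card := by
    refine le_trans (card_le_card fun b hb => ?_) card_biUnion_le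
    obtain ⟨hb1, hb2⟩ := mem_inter.1 hb
    obtain ⟨x, hx, hx2⟩ := mem_biUnion.1 hb2
    exact mem_biUnion.2 ⟨x, hx, mem_inter.2 ⟨hx2, hb1⟩⟩
  have e6 : ((Y.biUnion fun x => N x \ (A ∩ S ∪ D)).card : ℝ) ≤
      ∑ x ∈ Y, ((r : ℝ) - (N x ∩ (A ∩ S)).card - (N x ∩ D).card) := by
    have e7 : ((Y.biUnion fun x => N x \ (A ∩ S ∪ D)).card : ℝ) ≤
        ∑ x ∈ Y, ((N x \ (A ∩ S ∪ D)).card : ℝ) := by exact_mod_cast card_biUnion_le
    refine e7.trans (sum_le_sum fun x _ => ?_)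
    have e8 := card_sdiff_add_card_inter (N x) (A ∩ S ∪ D)
    have e9 : (N x ∩ (A ∩ S ∪ D)).card = (N x ∩ (A ∩ S)).card + (N x ∩ D).card := by
      rw [inter_union_distrib_left]
      exact card_union_of_disjoint (hd.mono inter_subset_right inter_subset_right)
    have e10 : (N x \ (A ∩ S ∪ D)).card + (N x ∩ (A ∩ S)).card + (N x ∩ D).card ≤ r := by
      have := hr x
      omega
    have e11 : ((N x \ (A ∩ S ∪ D)).card : ℝ) + (N x ∩ (A ∩ S)).card + (N x ∩ D).card ≤ r := by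
      exact_mod_cast e10
    linarith
  have f1 : (((S.erase a).filter (H a)).card : ℝ) ≤ X.card + (A ∩ S).card +
      (D ∩ Y.biUnion N).card + (Y.biUnion fun x => N x \ (A ∩ S ∪ D)).card := by
    exact_mod_cast (by omega : ((S.erase a).filter (H a)).card ≤ X.card + (A ∩ S).card +
      (D ∩ Y.biUnion N).card + (Y.biUnion fun x => N x \ (A ∩ S ∪ D)).card)
  have f4 : ((D ∩ Y.biUnion N).card : ℝ) ≤ D.card := by exact_mod_cast e4
  have f5 : ((D ∩ Y.biUnion N).card : ℝ) ≤ ∑ x ∈ Y, ((N x ∩ D).card : ℝ) := by exact_mod_cast e5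
  have f6 : ∑ x ∈ Y, ((r : ℝ) - (N x ∩ (A ∩ S)).card - l * (N x ∩ D).card) =
      ∑ x ∈ Y, ((r : ℝ) - (N x ∩ (A ∩ S)).card - (N x ∩ D).card) +
        (1 - l) * ∑ x ∈ Y, ((N x ∩ D).card : ℝ) := by
    rw [mul_sum, ← sum_add_distrib]
    exact sum_congr rfl fun x _ => by ring
  have f7 := mul_le_mul_of_nonneg_left f4 h0
  have f8 := mul_le_mul_of_nonneg_left f5 (sub_nonneg.2 h1)
  rw [f6]
  linarith

lemma sum_conf {S X A D : Finset V} (hcl : Cl G X A) (hd : Disjoint (A ∩ S) D) {l : ℝ}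
    (h0 : 0 ≤ l) (h1 : l ≤ 1) :
    ∑ a ∈ A ∩ S, (((S.erase a).filter (H a)).card : ℝ) ≤
      (A ∩ S).card * (X.card + (A ∩ S).card + l * D.card) +
      ∑ x ∈ X, ((N x ∩ (A ∩ S)).card : ℝ) *
        ((r : ℝ) - (N x ∩ (A ∩ S)).card - l * (N x ∩ D).card) := by
  refine (sum_le_sum fun a ha => one_conf N hN hr H hH hcl hd h0 h1 ha).trans (le_of_eq ?_)
  rw [sum_add_distrib, sum_const, nsmul_eq_mul]
  congr 1
  simp only [sum_filter]
  rw [sum_comm]
  refine sum_congr rfl fun x _ => ?_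
  rw [← sum_filter, sum_const, nsmul_eq_mul, filter_mem_eq_inter, inter_comm (A ∩ S) (N x)]

lemma low_one {S X A : Finset V} {n s : ℝ} (hs : s ^ 2 = n) (hs0 : 0 ≤ s) (hX : (X.card : ℝ) ≤ n)
    (hcl : Cl G X A) (hne : 0 < (A ∩ S).card) (hlo : r * s ≤ 2 * ((A ∩ S).card : ℝ))
    (hhi : (X.card : ℝ) + (A ∩ S).card ≤ r * s / 2 + n) :
    ∃ a ∈ S, (((S.erase a).filter (H a)).card : ℝ) ≤ r * s + n := by
  have h := sum_conf N hN hr H hH (S := S) (D := ∅) hcl (disjoint_empty_right _) le_rfl zero_le_one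
  have h1 : ∑ x ∈ X, ((N x ∩ (A ∩ S)).card : ℝ) *
      ((r : ℝ) - (N x ∩ (A ∩ S)).card - 0 * (N x ∩ ∅).card) ≤ ∑ _x ∈ X, (r : ℝ) ^ 2 / 4 :=
    sum_le_sum fun x _ => by nlinarith [sq_nonneg ((r : ℝ) - 2 * (N x ∩ (A ∩ S)).card)]
  rw [sum_const, nsmul_eq_mul] at h1
  have h2 : (X.card : ℝ) * ((r : ℝ) ^ 2 / 4) ≤ s ^ 2 * ((r : ℝ) ^ 2 / 4) :=
    mul_le_mul_of_nonneg_right (hs ▸ hX) (by positivity)
  have h3 : (0 : ℝ) ≤ r * s := by positivity
  have h4 : (0 : ℝ) ≤ (A ∩ S).card := Nat.cast_nonneg _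
  have h5 : ∑ a ∈ A ∩ S, (((S.erase a).filter (H a)).card : ℝ) ≤
      ∑ _a ∈ A ∩ S, (r * s + n) := by
    rw [sum_const, nsmul_eq_mul]
    have h6 := mul_le_mul_of_nonneg_left hlo h3
    have h7 := mul_le_mul_of_nonneg_left hhi h4
    nlinarith
  obtain ⟨a, ha, h9⟩ := exists_le_of_sum_le (card_pos.1 hne) h5
  exact ⟨a, (mem_inter.1 ha).2, h9⟩

lemma low_both {S X A₁ A₂ : Finset V} {n s : ℝ} (hs : s ^ 2 = n) (hn : 0 < n)
    (hX : (X.card : ℝ) ≤ n) (hcl₁ : Cl G X A₁) (hcl₂ : Cl G X A₂) (hd : Disjoint A₁ A₂)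
    (ha : 2 * ((A₁ ∩ S).card : ℝ) < r * s) (hb : 2 * ((A₂ ∩ S).card : ℝ) < r * s)
    (hab : r * s ≤ 2 * (((A₁ ∩ S).card : ℝ) + (A₂ ∩ S).card)) :
    ∃ a ∈ S, (((S.erase a).filter (H a)).card : ℝ) ≤ r * s + n := by
  by_contra hcon
  push Not at hcon
  have hd' : Disjoint (A₁ ∩ S) (A₂ ∩ S) := hd.mono inter_subset_left inter_subset_left
  have k1 := fun (l : ℝ) h0 h1 => sum_conf N hN hr H hH (S := S) (l := l) hcl₁ hd' h0 h1
  have k2 := fun (l : ℝ) h0 h1 => sum_conf N hN hr H hH (S := S) (l := l) hcl₂ hd'.symm h0 h1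
  have g1 : ((A₁ ∩ S).card : ℝ) * (r * s + n) <
      ∑ a ∈ A₁ ∩ S, (((S.erase a).filter (H a)).card : ℝ) := by
    rw [← nsmul_eq_mul, ← sum_const]
    have hp : (0 : ℝ) < (A₁ ∩ S).card := by linarith
    exact sum_lt_sum_of_nonempty (card_pos.1 (by exact_mod_cast hp))
      fun a ha => hcon a (mem_inter.1 ha).2
  have g2 : ((A₂ ∩ S).card : ℝ) * (r * s + n) ≤
      ∑ a ∈ A₂ ∩ S, (((S.erase a).filter (H a)).card : ℝ) := by
    rw [← nsmul_eq_mul, ← sum_const]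
    exact sum_le_sum fun a ha => (hcon a (mem_inter.1 ha).2).le
  generalize ((A₁ ∩ S).card : ℝ) = a at *
  generalize ((A₂ ∩ S).card : ℝ) = b at *
  generalize hT : (r : ℝ) * s = T at *
  have ha0 : 0 < a := by linarith
  have hb0 : 0 < b := by linarith
  have hT0 : 0 < T := by linarith
  have hα : 0 < b * (T - 2 * b) := mul_pos hb0 (by linarith)
  have hβ : 0 < a * (T - 2 * a) := mul_pos ha0 (by linarith)
  have hμ : 0 < (T - 2 * a) * (T - 2 * b) := mul_pos (by linarith) (by linarith)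
  have hq := quad hT0 hT.symm ha hb hab
  have hp := psd hT0 ha hb hab 1 (-1)
  have hL : T * (b * (T - 2 * b) * a + a * (T - 2 * a) * b) =
      2 * (b * (T - 2 * b) * a ^ 2 + a * (T - 2 * a) * b ^ 2 +
        (T - 2 * a) * (T - 2 * b) * (a * b)) := by ring
  generalize b * (T - 2 * b) = α at *
  generalize a * (T - 2 * a) = β at *
  generalize (T - 2 * a) * (T - 2 * b) = μ at *
  have hαβ : 0 < α + β := by linarith
  have hl0 : 0 ≤ μ / (α + β) := by positivity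
  have hl1 : μ / (α + β) ≤ 1 := (div_le_one hαβ).2 (by linarith)
  have hl : (α + β) * (μ / (α + β)) = μ := by field_simp
  have k1' := k1 _ hl0 hl1
  have k2' := k2 _ hl0 hl1
  generalize μ / (α + β) = l at *
  have hQ : 0 < α * a ^ 2 + β * b ^ 2 + μ * (a * b) := by positivity
  have hx : α * ∑ x ∈ X, ((N x ∩ (A₁ ∩ S)).card : ℝ) *
        ((r : ℝ) - (N x ∩ (A₁ ∩ S)).card - l * (N x ∩ (A₂ ∩ S)).card) +
      β * ∑ x ∈ X, ((N x ∩ (A₂ ∩ S)).card : ℝ) *
        ((r : ℝ) - (N x ∩ (A₂ ∩ S)).card - l * (N x ∩ (A₁ ∩ S)).card) ≤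
      ∑ _x ∈ X, (α * a ^ 2 + β * b ^ 2 + μ * (a * b)) / n := by
    rw [mul_sum, mul_sum, ← sum_add_distrib]
    refine sum_le_sum fun x _ => ?_
    rw [le_div_iff₀ hn]
    have := hq (N x ∩ (A₁ ∩ S)).card (N x ∩ (A₂ ∩ S)).card
    rw [hs, ← hl] at this
    rw [← hl]
    linarith
  rw [sum_const, nsmul_eq_mul] at hx
  have hy : (X.card : ℝ) * ((α * a ^ 2 + β * b ^ 2 + μ * (a * b)) / n) ≤
      α * a ^ 2 + β * b ^ 2 + μ * (a * b) := by
    refine (mul_le_mul_of_nonneg_right hX (by positivity)).trans (le_of_eq ?_)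
    field_simp
  have m1 := mul_lt_mul_of_pos_left (g1.trans_le k1') hα
  have m2 := mul_le_mul_of_nonneg_left (g2.trans k2') hβ.le
  have m3 := mul_le_mul_of_nonneg_left hX (mul_pos hα ha0).le
  have m4 := mul_le_mul_of_nonneg_left hX (mul_pos hβ hb0).le
  have m6 : (α + β) * l * (a * b) = μ * (a * b) := by rw [hl]
  nlinarith

lemma low_two {S : Finset V} {k : ℕ} (hP : Two G S k (⌊r * √((k : ℝ) + 1) / 2⌋₊ + 1)) :
    ∃ a ∈ S, (((S.erase a).filter (H a)).card : ℝ) ≤ r * √((k : ℝ) + 1) + (k + 1) := by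
  obtain ⟨X, A₁, A₂, hX, h1, h2, hd, ha, hb, hab⟩ := hP
  have hn : (0 : ℝ) < k + 1 := by positivity
  have hs : √((k : ℝ) + 1) ^ 2 = k + 1 := Real.sq_sqrt hn.le
  have hs0 : 0 ≤ √((k : ℝ) + 1) := Real.sqrt_nonneg _
  have hX' : (X.card : ℝ) ≤ k + 1 := by exact_mod_cast hX
  have hT : (0 : ℝ) ≤ r * √((k : ℝ) + 1) / 2 := by positivity
  have f1 := Nat.floor_le hT
  have f2 := Nat.lt_floor_add_one (r * √((k : ℝ) + 1) / 2)
  have ha' : ((A₁ ∩ S).card : ℝ) ≤ ⌊r * √((k : ℝ) + 1) / 2⌋₊ := by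
    exact_mod_cast (by omega : (A₁ ∩ S).card ≤ ⌊r * √((k : ℝ) + 1) / 2⌋₊)
  have hb' : (X.card : ℝ) + (A₂ ∩ S).card ≤ ⌊r * √((k : ℝ) + 1) / 2⌋₊ + (k + 1) := by
    exact_mod_cast (by omega : X.card + (A₂ ∩ S).card ≤ ⌊r * √((k : ℝ) + 1) / 2⌋₊ + (k + 1))
  have hab' : (⌊r * √((k : ℝ) + 1) / 2⌋₊ : ℝ) + 1 ≤ (A₁ ∩ S).card + (A₂ ∩ S).card := by
    exact_mod_cast hab
  by_cases c2 : r * √((k : ℝ) + 1) ≤ 2 * ((A₂ ∩ S).card : ℝ) ∧ 0 < (A₂ ∩ S).card
  · exact low_one N hN hr H hH hs hs0 hX' h2 c2.2 c2.1 (by linarith)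
  by_cases c1 : r * √((k : ℝ) + 1) ≤ 2 * ((A₁ ∩ S).card : ℝ) ∧ 0 < (A₁ ∩ S).card
  · exact low_one N hN hr H hH hs hs0 hX' h1 c1.2 c1.1 (by linarith)
  refine low_both N hN hr H hH hs hn hX' h1 h2 hd ?_ ?_ (by linarith)
  · by_contra hc
    have e : (A₁ ∩ S).card = 0 := by
      by_contra e
      exact c1 ⟨not_lt.1 hc, Nat.pos_of_ne_zero e⟩
    have e' : ((A₁ ∩ S).card : ℝ) = 0 := by exact_mod_cast e
    have e2 : (0 : ℝ) ≤ (A₂ ∩ S).card := Nat.cast_nonneg _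
    exact c2 ⟨by linarith [not_lt.1 hc], by omega⟩
  · by_contra hc
    have e : (A₂ ∩ S).card = 0 := by
      by_contra e
      exact c2 ⟨not_lt.1 hc, Nat.pos_of_ne_zero e⟩
    have e' : ((A₂ ∩ S).card : ℝ) = 0 := by exact_mod_cast e
    have e2 : (0 : ℝ) ≤ (A₁ ∩ S).card := Nat.cast_nonneg _
    exact c1 ⟨by linarith [not_lt.1 hc], by omega⟩

end colour

theorem chiDyn_le_sharp {V : Type} [Fintype V] (G : SimpleGraph V) {k : ℕ} (r : ℕ)
    (hk : treewidth G ≤ k) : (chiDyn G r : ℝ) ≤ r * √((k : ℝ) + 1) + k + 2 := by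
  classical
  obtain ⟨T, _, TT, B, hT, hc, he, hB⟩ := hasTreeDecomp_treewidth G
  have hB' : ∀ x, (B x).card ≤ k + 1 := fun x => (hB x).trans (by omega)
  have hex : ∀ x : V, ∃ N ⊆ G.neighborFinset x, N.card = min r (G.neighborFinset x).card :=
    fun x => exists_subset_card_eq (min_le_right _ _)
  choose N hN1 hN2 using hex
  have hN : ∀ x, ∀ a ∈ N x, G.Adj x a := fun x a ha => (G.mem_neighborFinset x a).1 (hN1 x ha)
  let H : V → V → Prop := fun a b => G.Adj a b ∨ ∃ x, a ∈ N x ∧ b ∈ N x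
  have hs : ∀ a b, H a b → H b a := by
    rintro a b (h | ⟨x, h1, h2⟩)
    · exact Or.inl h.symm
    · exact Or.inr ⟨x, h2, h1⟩
  have h0 : (0 : ℝ) ≤ r * √((k : ℝ) + 1) := by positivity
  obtain ⟨φ, hφ⟩ := exists_colouring H hs ⌊r * √((k : ℝ) + 1) + (k + 1)⌋₊ (fun S hS => by
    by_cases hbig : ⌊r * √((k : ℝ) + 1) / 2⌋₊ + 1 + k + 1 ≤ S.card
    · obtain ⟨a, ha, h⟩ := low_two N hN (r := r) (fun x => by rw [hN2]; exact min_le_left _ _)
        H (fun _ _ h => h) (exists_two hc he hT hB' (by omega) hbig)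
      exact ⟨a, ha, Nat.le_floor h⟩
    · obtain ⟨a, ha⟩ := hS
      refine ⟨a, ha, Nat.le_floor ?_⟩
      have h1 := (card_filter_le (S.erase a) (H a)).trans (card_erase_le (a := a))
      have h2 : (((S.erase a).filter (H a)).card : ℝ) ≤ ⌊r * √((k : ℝ) + 1) / 2⌋₊ + 1 + k := by
        exact_mod_cast (by omega :
          ((S.erase a).filter (H a)).card ≤ ⌊r * √((k : ℝ) + 1) / 2⌋₊ + 1 + k)
      have h3 := Nat.floor_le (show (0 : ℝ) ≤ r * √((k : ℝ) + 1) / 2 by positivity)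
      have h4 : (0 : ℝ) ≤ k := Nat.cast_nonneg _
      linarith) univ
  have hle : chiDyn G r ≤ ⌊r * √((k : ℝ) + 1) + (k + 1)⌋₊ + 1 := by
    refine Nat.sInf_le ⟨φ, fun u v h => hφ u (mem_univ _) v (mem_univ _) h.ne (Or.inl h),
      fun v => ?_⟩
    have h1 : (G.neighborSet v).ncard = (G.neighborFinset v).card := by
      rw [← Set.ncard_coe_finset, SimpleGraph.coe_neighborFinset]
    have h2 : Set.InjOn φ (N v : Set V) := fun a ha b hb hab => by
      by_contra hne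
      exact hφ a (mem_univ _) b (mem_univ _) hne (Or.inr ⟨v, ha, hb⟩) hab
    rw [h1, ← hN2, ← Set.ncard_coe_finset, ← h2.ncard_image]
    exact Set.ncard_le_ncard (Set.image_mono fun a ha => hN v a ha) (Set.toFinite _)
  have h5 : (chiDyn G r : ℝ) ≤ ⌊r * √((k : ℝ) + 1) + (k + 1)⌋₊ + 1 := by exact_mod_cast hle
  have h6 := Nat.floor_le (show (0 : ℝ) ≤ r * √((k : ℝ) + 1) + (k + 1) by positivity)
  linarith

end Pool.Agent.Work.MP_96dc1b_co.C
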